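import Pool.Agent.Helper57.Dens.Mix

open Filter Topology Cardinal Helper57.Dens

namespace Pool.Agent.Results.MP_cadfc1_lc.MixtureClosure

theorem mem_DK {κ : Cardinal.{0}} {ρ : ℝ} (h0 : 0 < ρ) (h1 : ρ < 1) (h : dd ρ ≤ κ) :
    ρ ∈ DK κ := Or.inr (Or.inr ⟨h0, h1, h⟩)

theorem zero_mem_DK (κ : Cardinal.{0}) : (0 : ℝ) ∈ DK κ := Or.inl rfl

theorem one_mem_DK (κ : Cardinal.{0}) : (1 : ℝ) ∈ DK κ := Or.inr (Or.inl rfl)

theorem le_of_mem_DK {κ : Cardinal.{0}} {ρ : ℝ} (h0 : 0 < ρ) (h1 : ρ < 1) (h : ρ ∈ DK κ) :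
    dd ρ ≤ κ := by
  rcases h with rfl | rfl | ⟨-, -, h⟩
  · exact absurd h0 (lt_irrefl _)
  · exact absurd h1 (lt_irrefl _)
  · exact h

theorem compl_mem_DK {κ : Cardinal.{0}} {ρ : ℝ} (h : ρ ∈ DK κ) : 1 - ρ ∈ DK κ := by
  have := DK_mix h (zero_mem_DK κ) (one_mem_DK κ)
  simpa using this

theorem mul_mem_DK {κ : Cardinal.{0}} {σ ρ : ℝ} (h : σ ∈ DK κ) (h' : ρ ∈ DK κ) :
    σ * ρ ∈ DK κ := by
  have := DK_mix h h' (zero_mem_DK κ)
  simpa using this

theorem bern_mem_DK {κ : Cardinal.{0}} {ρ : ℝ} (h : ρ ∈ DK κ) (n : ℕ) :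
    ∀ c : ℕ → ℕ, (∀ a ≤ n, c a ≤ n.choose a) →
      ∑ a ∈ Finset.range (n + 1), (c a : ℝ) * ρ ^ a * (1 - ρ) ^ (n - a) ∈ DK κ := by
  induction n with
  | zero =>
    intro c hc
    have h1 : c 0 ≤ 1 := by simpa using hc 0 le_rfl
    have h2 : c 0 = 0 ∨ c 0 = 1 := by omega
    rcases h2 with h2 | h2
    · simpa [h2] using zero_mem_DK κ
    · simpa [h2] using one_mem_DK κ
  | succ n ih =>
    intro c hc
    -- `e a` of the `c a` words start with a `1`
    let e : ℕ → ℕ := fun a => min (c (a + 1)) (n.choose a)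
    let f : ℕ → ℕ := fun a => if a = 0 then c 0 else c a - min (c a) (n.choose (a - 1))
    have he : ∀ a ≤ n, e a ≤ n.choose a := fun a _ => min_le_right _ _
    have hf : ∀ a ≤ n, f a ≤ n.choose a := by
      intro a ha
      by_cases h0 : a = 0
      · subst h0
        have := hc 0 (by omega)
        simpa [f] using this
      · obtain ⟨b, rfl⟩ : ∃ b, a = b + 1 := ⟨a - 1, by omega⟩
        have h1 := hc (b + 1) (by omega)
        rw [Nat.choose_succ_succ] at h1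
        have h2 : f (b + 1) = c (b + 1) - min (c (b + 1)) (n.choose b) := by
          simp [f]
        have h3 : Nat.choose n (Nat.succ b) = n.choose (b + 1) := rfl
        rw [h3] at h1
        rw [h2]
        omega
    have hn1 : f (n + 1) = 0 := by
      have h1 := hc (n + 1) le_rfl
      have h2 : f (n + 1) = c (n + 1) - min (c (n + 1)) (n.choose n) := by
        simp [f]
      rw [Nat.choose_self] at h1 h2
      rw [h2]
      omega
    have hsplit : ∀ a, (c (a + 1) : ℝ) = e a + f (a + 1) := by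
      intro a
      have h2 : f (a + 1) = c (a + 1) - min (c (a + 1)) (n.choose a) := by
        simp [f]
      have : c (a + 1) = e a + f (a + 1) := by
        rw [h2]
        show c (a + 1) = min (c (a + 1)) (n.choose a) + _
        omega
      exact_mod_cast this
    have h1 := DK_mix h (ih e he) (ih f hf)
    have h2 : ∑ a ∈ Finset.range (n + 1 + 1), (c a : ℝ) * ρ ^ a * (1 - ρ) ^ (n + 1 - a) =
        ρ * (∑ a ∈ Finset.range (n + 1), (e a : ℝ) * ρ ^ a * (1 - ρ) ^ (n - a)) +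
        (1 - ρ) * (∑ a ∈ Finset.range (n + 1), (f a : ℝ) * ρ ^ a * (1 - ρ) ^ (n - a)) := by
      have h3 : (1 - ρ) * (∑ a ∈ Finset.range (n + 1), (f a : ℝ) * ρ ^ a * (1 - ρ) ^ (n - a)) =
          ∑ a ∈ Finset.range (n + 1 + 1), (f a : ℝ) * ρ ^ a * (1 - ρ) ^ (n + 1 - a) := by
        rw [Finset.sum_range_succ _ (n + 1), hn1, Finset.mul_sum]
        simp only [Nat.cast_zero, zero_mul, add_zero]
        refine Finset.sum_congr rfl fun a ha => ?_
        rw [Finset.mem_range] at ha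
        have h4 : n + 1 - a = (n - a) + 1 := by omega
        rw [h4, pow_succ]
        ring
      rw [h3, Finset.sum_range_succ', Finset.sum_range_succ' (fun a => (f a : ℝ) * ρ ^ a *
        (1 - ρ) ^ (n + 1 - a)), Finset.mul_sum, ← add_assoc, ← Finset.sum_add_distrib]
      congr 1
      refine Finset.sum_congr rfl fun a _ => ?_
      have h4 : n + 1 - (a + 1) = n - a := by omega
      rw [hsplit, h4, pow_succ]
      ring
    rw [h2]
    exact h1

theorem result :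
    (∀ σ ρ τ : ℝ, 0 < σ → σ < 1 → 0 < ρ → ρ < 1 → 0 < τ → τ < 1 →
      dd (σ * ρ + (1 - σ) * τ) ≤ max (dd σ) (max (dd ρ) (dd τ))) ∧
    (∀ σ ρ : ℝ, 0 < σ → σ < 1 → 0 < ρ → ρ < 1 → dd (σ * ρ) ≤ max (dd σ) (dd ρ)) ∧
    (∀ ρ : ℝ, 0 < ρ → ρ < 1 → dd (1 - ρ) = dd ρ) ∧
    (∀ ρ : ℝ, 0 < ρ → ρ < 1 → ∀ (n : ℕ) (c : ℕ → ℕ), (∀ a ≤ n, c a ≤ n.choose a) →
      0 < ∑ a ∈ Finset.range (n + 1), (c a : ℝ) * ρ ^ a * (1 - ρ) ^ (n - a) →
      ∑ a ∈ Finset.range (n + 1), (c a : ℝ) * ρ ^ a * (1 - ρ) ^ (n - a) < 1 →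
      dd (∑ a ∈ Finset.range (n + 1), (c a : ℝ) * ρ ^ a * (1 - ρ) ^ (n - a)) ≤ dd ρ) ∧
    (∀ n k : ℕ, 0 < k → k < 2 ^ n → dd ((k : ℝ) / 2 ^ n) ≤ dd (1 / 2)) ∧
    (∀ ρ : ℝ, 0 < ρ → ρ < 1 → ρ ^ 4 + ρ = 1 → dd (ρ ^ 2) = dd ρ) := by
  have hmul : ∀ σ ρ : ℝ, 0 < σ → σ < 1 → 0 < ρ → ρ < 1 → dd (σ * ρ) ≤ max (dd σ) (dd ρ) := by
    intro σ ρ s0 s1 r0 r1
    refine le_of_mem_DK (mul_pos s0 r0) (by nlinarith) ?_
    exact mul_mem_DK (mem_DK s0 s1 (le_max_left _ _)) (mem_DK r0 r1 (le_max_right _ _))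
  have hc : ∀ ρ : ℝ, 0 < ρ → ρ < 1 → dd (1 - ρ) ≤ dd ρ := by
    intro ρ r0 r1
    exact le_of_mem_DK (by linarith) (by linarith) (compl_mem_DK (mem_DK r0 r1 le_rfl))
  have hc' : ∀ ρ : ℝ, 0 < ρ → ρ < 1 → dd (1 - ρ) = dd ρ := by
    intro ρ r0 r1
    refine le_antisymm (hc ρ r0 r1) ?_
    have := hc (1 - ρ) (by linarith) (by linarith)
    rwa [sub_sub_cancel] at this
  have hd : ∀ n k : ℕ, k ≤ 2 ^ n → ∀ κ : Cardinal.{0}, dd (1 / 2) ≤ κ →
      (k : ℝ) / 2 ^ n ∈ DK κ := by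
    intro n
    induction n with
    | zero =>
      intro k hk κ _
      have h2 : k = 0 ∨ k = 1 := by
        rw [pow_zero] at hk
        omega
      rcases h2 with rfl | rfl
      · simpa using zero_mem_DK κ
      · simpa using one_mem_DK κ
    | succ n ih =>
      intro k hk κ hκ
      have h12 : (1 / 2 : ℝ) ∈ DK κ := mem_DK (by norm_num) (by norm_num) hκ
      by_cases hk2 : k ≤ 2 ^ n
      · have h1 := mul_mem_DK h12 (ih k hk2 κ hκ)
        have h2 : (1 / 2 : ℝ) * ((k : ℝ) / 2 ^ n) = (k : ℝ) / 2 ^ (n + 1) := by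
          rw [pow_succ]
          field_simp
        rwa [h2] at h1
      · have hk3 : k - 2 ^ n ≤ 2 ^ n := by
          rw [pow_succ] at hk
          omega
        have h1 := DK_mix h12 (one_mem_DK κ) (ih _ hk3 κ hκ)
        have h2 : (1 / 2 : ℝ) * 1 + (1 - 1 / 2) * (((k - 2 ^ n : ℕ) : ℝ) / 2 ^ n) =
            (k : ℝ) / 2 ^ (n + 1) := by
          rw [pow_succ, Nat.cast_sub (by omega)]
          push_cast
          field_simp
          ring
        rwa [h2] at h1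
  refine ⟨?_, hmul, hc', ?_, ?_, ?_⟩
  · intro σ ρ τ s0 s1 r0 r1 t0 t1
    have a1 : 0 < σ * ρ := mul_pos s0 r0
    have a2 : 0 < (1 - σ) * τ := mul_pos (by linarith) t0
    have a3 : σ * ρ < σ := by nlinarith
    have a4 : (1 - σ) * τ < 1 - σ := by nlinarith
    refine le_of_mem_DK (by linarith) (by linarith) ?_
    exact DK_mix (mem_DK s0 s1 (le_max_left _ _))
      (mem_DK r0 r1 ((le_max_left _ _).trans (le_max_right _ _)))
      (mem_DK t0 t1 ((le_max_right _ _).trans (le_max_right _ _)))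
  · intro ρ r0 r1 n c hcc q0 q1
    exact le_of_mem_DK q0 q1 (bern_mem_DK (mem_DK r0 r1 le_rfl) n c hcc)
  · intro n k hk hk'
    have h1 : (0 : ℝ) < (k : ℝ) / 2 ^ n := by positivity
    have h2 : (k : ℝ) / 2 ^ n < 1 := by
      rw [div_lt_one (by positivity)]
      exact_mod_cast hk'
    exact le_of_mem_DK h1 h2 (hd n k hk'.le _ le_rfl)
  · intro ρ r0 r1 hρ
    have s0 : 0 < ρ ^ 2 := by positivity
    have s1 : ρ ^ 2 < 1 := by nlinarith
    refine le_antisymm ?_ ?_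
    · have := hmul ρ ρ r0 r1 r0 r1
      rw [max_self] at this
      rwa [pow_two]
    · have h1 : ρ ^ 2 ∈ DK (dd (ρ ^ 2)) := mem_DK s0 s1 le_rfl
      have h2 := compl_mem_DK (mul_mem_DK h1 h1)
      have h3 : 1 - ρ ^ 2 * ρ ^ 2 = ρ := by
        have : ρ ^ 2 * ρ ^ 2 = ρ ^ 4 := by ring
        linarith
      rw [h3] at h2
      exact le_of_mem_DK r0 r1 h2

end Pool.Agent.Results.MP_cadfc1_lc.MixtureClosure
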