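import Pool.Agent.Helper57.Dens.Mix

open Filter Topology Cardinal Helper57.Dens

namespace Pool.Agent.Results.MP_cadfc1_lc.UncountableCofinality

theorem result :
    (∀ θ : ℕ → Equiv.Perm ℕ, ∃ π : Equiv.Perm ℕ, ∀ (A : Set ℕ) (ρ : ℝ),
      HasDens (π '' A) ρ → ∀ j, HasDens (θ j '' A) ρ) ∧
    (∀ (ρ : ℝ) (𝒳 : ℕ → Set (Set ℕ)),
      (∀ k, ∃ π : Equiv.Perm ℕ, ∀ A ∈ 𝒳 k, HasDens A ρ → ¬ HasDens (π '' A) ρ) →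
      ∃ π : Equiv.Perm ℕ, ∀ k, ∀ A ∈ 𝒳 k, HasDens A ρ → ¬ HasDens (π '' A) ρ) ∧
    (∀ ρ : ℝ, 0 < ρ → ρ < 1 → ℵ₀ < (dd ρ).ord.cof) := by
  refine ⟨merging_dens, ?_, fun ρ h0 h1 => aleph0_lt_cof h0 h1⟩
  intro ρ 𝒳 h
  obtain ⟨π, hπ⟩ := sigma_ideal (ρ := ρ) (fun k => {A | A ∈ 𝒳 k ∧ HasDens A ρ}) (by
    intro k
    obtain ⟨π, hπ⟩ := h k
    exact ⟨π, fun A hA => hπ A hA.1 hA.2⟩)
  exact ⟨π, fun k A hA hA' => hπ A ⟨k, hA, hA'⟩⟩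

end Pool.Agent.Results.MP_cadfc1_lc.UncountableCofinality
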